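import Mathlib
import Pool.Agent.H155R3.D5

set_option autoImplicit false

/-!
# Representing systems of Cauchy kernels of zero upper density exist

The same set `Λ` works for all Hardy spaces `H^p`, `1 ≤ p < ∞`, at once.

Sketch of the proof.  For `0 < lam_j < 1` distinct, `1 - ∑ c_j k_{lam_j}` can be made equal to
`∏ lam_j (lam_j - z) / (1 - lam_j z)`, which has modulus `∏ lam_j` on the circle, and this is as small
as we wish for `lam_j = 1 - κ/(j+1)`, `j < J`, however small `κ` is.  Replacing `z` by `z^N` and using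
that `g(z) k_lam(z^N)` is the average of `g(1/conj μ) k_μ(z)` over the `N` roots of `μ^N = lam`
(for a polynomial `g` of degree less than `N`) gives, for every `N`, a combination of kernels at a shell
of points of density `O(κ)` close to the circle of radius `1 - 1/N`, which is uniformly close to `g`;
its partial sums are `O(log N)` uniformly on the circle.  Averaging over shells with `N = 2^(a+bm)`,
`m < M`, and weights proportional to `1/(m+1)` makes all partial sums uniformly close to the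
segment from `0` to `g`.  Such blocks are put one after another, for a dense sequence of polynomials
`g` and with `κ → 0`.
-/

namespace Pool.Agent.Results.MP_459ac8_an.ZeroDensity

open MeasureTheory AddCircle Filter Topology
open scoped ENNReal

/-- The unit circle, parametrised by `ℝ/ℤ`: the class of `x` stands for `e^{2πix}`, which is
`fourier 1 x`. -/
abbrev Circ : Type := AddCircle (1 : ℝ)

/-- The Cauchy kernel `k_lam(ζ) = 1 / (1 - conj(lam) ζ)` at the point `ζ = e^{2πit}` of the circle. -/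
noncomputable def cauchyKernel (lam : ℂ) (t : Circ) : ℂ :=
  1 / (1 - starRingEnd ℂ lam * (fourier 1 t : ℂ))

/-- The Hardy space `H^p` (through boundary values): the functions in `L^p` of the circle, with respect
to normalised arc length, whose Fourier coefficients of negative index vanish. -/
def MemHardy (p : ℝ≥0∞) (f : Circ → ℂ) : Prop :=
  MemLp f p haarAddCircle ∧ ∀ n : ℤ, n < 0 → fourierCoeff f n = 0

/-- The Cauchy kernels at the points `Λ 0, Λ 1, …` form a representing system in `H^p`. -/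
def IsRepresenting (p : ℝ≥0∞) (Λ : ℕ → ℂ) : Prop :=
  ∀ f : Circ → ℂ, MemHardy p f → ∃ c : ℕ → ℂ,
    Tendsto (fun N : ℕ => eLpNorm (fun t => f t - ∑ k ∈ Finset.range N, c k * cauchyKernel (Λ k) t) p
      haarAddCircle) atTop (𝓝 0)

/-- The upper density `D₊(Λ) = limsup_{r → 1-} (1 - r) #{n : |Λ n| < r}`. -/
noncomputable def upperDensity (Λ : ℕ → ℂ) : ℝ≥0∞ :=
  limsup (fun r : ℝ => ENNReal.ofReal (1 - r) * ((({n : ℕ | ‖Λ n‖ < r}.encard : ℕ∞)) : ℝ≥0∞)) (𝓝[<] 1)

theorem result : ∃ Λ : ℕ → ℂ, Function.Injective Λ ∧ (∀ n, ‖Λ n‖ < 1) ∧ upperDensity Λ = 0 ∧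
    ∀ p : ℝ≥0∞, 1 ≤ p → p ≠ ∞ → IsRepresenting p Λ := by
  obtain ⟨Λ, hinj, hdens, hrep⟩ := Pool.Agent.H155R3.exists_zero_density
  refine ⟨fun n => (Λ n).1, Subtype.val_injective.comp hinj, fun n => (Λ n).2, ?_, ?_⟩
  · have h : Tendsto (fun r : ℝ => ENNReal.ofReal (1 - r) *
        ((({n : ℕ | ‖(Λ n).1‖ < r}.encard : ℕ∞)) : ℝ≥0∞)) (𝓝[<] 1) (𝓝 0) := by
      rw [ENNReal.tendsto_nhds_zero]
      intro ε hε
      rcases eq_or_ne ε ∞ with rfl | hε'
      · exact Eventually.of_forall fun _ => le_top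
      obtain ⟨r₀, hr₀, hr⟩ := hdens ε.toReal (ENNReal.toReal_pos hε.ne' hε')
      filter_upwards [Ioo_mem_nhdsLT hr₀] with r hrr
      obtain ⟨hfin, hle⟩ := hr r hrr.1 hrr.2
      rw [← hfin.cast_ncard_eq]
      have h1 : (((({n : ℕ | ‖(Λ n).1‖ < r}.ncard : ℕ) : ℕ∞)) : ℝ≥0∞) =
          ENNReal.ofReal ({n : ℕ | ‖(Λ n).1‖ < r}.ncard : ℝ) := by
        rw [ENNReal.ofReal_natCast]
        simp
      rw [h1, ← ENNReal.ofReal_mul (by linarith [hrr.2])]
      exact ENNReal.ofReal_le_of_le_toReal hle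
    exact h.limsup_eq
  · intro p hp hp' f hf
    haveI : Fact (1 ≤ p) := ⟨hp⟩
    obtain ⟨hf1, hf2⟩ := hf
    have hmem : hf1.toLp f ∈ Pool.Agent.H155R3.Van p := by
      apply Pool.Agent.H155R3.mem_Van hp'
      intro n hn
      rw [fourierCoeff_congr_ae hf1.coeFn_toLp]
      exact hf2 n hn
    obtain ⟨c, hc⟩ := hrep p _ hmem
    refine ⟨c, ?_⟩
    have h1 := (tendsto_const_nhds (x := hf1.toLp f)).sub hc
    rw [sub_self] at h1
    have h2 := h1.norm
    rw [norm_zero] at h2
    have h3 := (ENNReal.tendsto_ofReal h2)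
    rw [ENNReal.ofReal_zero] at h3
    refine h3.congr fun N => ?_
    rw [Lp.norm_def, ENNReal.ofReal_toReal (Lp.eLpNorm_ne_top _)]
    apply eLpNorm_congr_ae
    have e1 := Lp.coeFn_sub (hf1.toLp f) (∑ k ∈ Finset.range N, c k •
      (ContinuousMap.toLp p Pool.Agent.H155R3.muT ℂ (Pool.Agent.H155R3.cker (Λ k)) :
        Lp ℂ p Pool.Agent.H155R3.muT))
    have e2 : (∑ k ∈ Finset.range N, c k •
      (ContinuousMap.toLp p Pool.Agent.H155R3.muT ℂ (Pool.Agent.H155R3.cker (Λ k)) :
        Lp ℂ p Pool.Agent.H155R3.muT)) =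
        ContinuousMap.toLp p Pool.Agent.H155R3.muT ℂ (∑ k ∈ Finset.range N, c k •
          Pool.Agent.H155R3.cker (Λ k)) := by
      rw [map_sum]
      simp only [map_smul]
    have e3 := ContinuousMap.coeFn_toLp (p := p) (𝕜 := ℂ) Pool.Agent.H155R3.muT
      (∑ k ∈ Finset.range N, c k • Pool.Agent.H155R3.cker (Λ k))
    rw [e2] at e1 ⊢
    filter_upwards [e1, e3, hf1.coeFn_toLp] with t h4 h5 h6
    rw [h4, Pi.sub_apply, h5, h6, ContinuousMap.sum_apply]
    congr 1
    apply Finset.sum_congr rfl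
    intro k _
    rw [ContinuousMap.smul_apply, Pool.Agent.H155R3.cker_apply, cauchyKernel, one_div, smul_eq_mul]

end Pool.Agent.Results.MP_459ac8_an.ZeroDensity
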